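import Pool.Agent.W845.TR.Base

set_option autoImplicit false
open scoped BigOperators

/-!
Project TR (MP_985e29_pr): entropy of coarse grained contours.
-/

namespace Pool.Agent.W136.TR

open Pool.Agent.W845.TR

variable {d : ℕ}

theorem mem_eb {U : Finset (S d)} {e : S d × Fin d} :
    e ∈ eb U ↔ ¬ (e.1 ∈ U ↔ e.1 + ue e.2 ∈ U) := by
  unfold eb
  rw [Finset.mem_filter]
  constructor
  · exact fun h => h.2
  · intro h
    refine ⟨?_, h⟩
    rw [Finset.mem_product]
    refine ⟨?_, Finset.mem_univ _⟩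
    rw [Finset.mem_union]
    by_cases h1 : e.1 ∈ U
    · exact Or.inl h1
    · right
      have h2 : e.1 + ue e.2 ∈ U := by
        by_contra h3
        exact h ⟨fun h4 => absurd h4 h1, fun h4 => absurd h4 h3⟩
      rw [Finset.mem_biUnion]
      exact ⟨_, h2, mem_nb.2 (adj_symm (adj_add_ue _ _))⟩

theorem ray_inj (x : S d) (j : Fin d) :
    Function.Injective (fun n : ℕ => x + (n : ℤ) • ue j) := by
  intro a b h
  have h1 := congrFun h j
  simp [ue] at h1
  exact h1

theorem exists_out (U : Finset (S d)) (x : S d) (j : Fin d) :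
    ∃ n : ℕ, x + (n : ℤ) • ue j ∉ U := by
  by_contra hc
  push_neg at hc
  have : Set.Finite (Set.range (fun n : ℕ => x + (n : ℤ) • ue j)) := by
    refine (U.finite_toSet).subset ?_
    rintro y ⟨n, rfl⟩
    exact hc n
  exact Set.infinite_range_of_injective (ray_inj x j) this

/-- Leaving a finite set along a ray. -/
theorem exists_exit (U : Finset (S d)) (x : S d) (j : Fin d) (hx : x ∈ U) :
    ∃ t : ℕ, (∀ s : ℕ, s ≤ t → x + (s : ℤ) • ue j ∈ U) ∧
      x + ((t : ℤ) + 1) • ue j ∉ U := by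
  classical
  have h := exists_out U x j
  have h0 : Nat.find h ≠ 0 := by
    intro h0
    have := Nat.find_spec h
    rw [h0] at this
    simp at this
    exact this hx
  refine ⟨Nat.find h - 1, ?_, ?_⟩
  · intro s hs
    by_contra hc
    have := Nat.find_min' h hc
    omega
  · have := Nat.find_spec h
    have e : ((Nat.find h - 1 : ℕ) : ℤ) + 1 = (Nat.find h : ℤ) := by
      have : 1 ≤ Nat.find h := Nat.one_le_iff_ne_zero.2 h0
      push_cast [Nat.cast_sub this]; ring
    rw [e]; exact this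

theorem exit_edge (U : Finset (S d)) (x : S d) (j : Fin d) (hx : x ∈ U) :
    ∃ t : ℕ, (∀ s : ℕ, s ≤ t → x + (s : ℤ) • ue j ∈ U) ∧
      (x + (t : ℤ) • ue j, j) ∈ eb U := by
  obtain ⟨t, h1, h2⟩ := exists_exit U x j hx
  refine ⟨t, h1, ?_⟩
  rw [mem_eb]
  intro h
  have h3 := h.1 (h1 t le_rfl)
  apply h2
  have e : x + ((t : ℤ) + 1) • ue j = x + (t : ℤ) • ue j + ue j := by
    rw [add_smul, one_smul, add_assoc]
  rw [e]; exact h3

theorem eb_inj (j : Fin d) {U V : Finset (S d)} (h : eb U = eb V) : U = V := by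
  classical
  have key : ∀ (n : ℕ) (x : S d), x + (n : ℤ) • ue j ∉ U ∪ V → (x ∈ U ↔ x ∈ V) := by
    intro n
    induction n with
    | zero =>
      intro x hx
      simp at hx
      exact ⟨fun h => absurd h hx.1, fun h => absurd h hx.2⟩
    | succ n ih =>
      intro x hx
      have e : x + ((n + 1 : ℕ) : ℤ) • ue j = (x + ue j) + (n : ℤ) • ue j := by
        push_cast
        rw [add_smul, one_smul]; abel
      rw [e] at hx
      have h1 := ih _ hx
      have h2 : (x, j) ∈ eb U ↔ (x, j) ∈ eb V := by rw [h]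
      rw [mem_eb, mem_eb] at h2
      simp only at h2
      tauto
  ext x
  obtain ⟨n, hn⟩ := exists_out (U ∪ V) x j
  exact key n x hn

theorem len_tri (z z' : S d) (L : List (S d × Fin d)) : len z L ≤ l1 z z' + len z' L := by
  cases L with
  | nil => simp only [len]; linarith [l1_nonneg z z']
  | cons e t => simp only [len]; linarith [l1_tri z z' e.1]

theorem cidx_ray (k t : ℕ) (v : S d) (j : Fin d) :
    2 ^ k * l1 (cidx k v) (cidx k (v + (t : ℤ) • ue j)) ≤ t + 2 ^ k := by
  have h1 : l1 (cidx k v) (cidx k (v + (t : ℤ) • ue j)) = |v j / 2 ^ k - (v j + t) / 2 ^ k| := by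
    unfold l1
    rw [Finset.sum_eq_single j]
    · simp [cidx, ue]
    · intro i _ hi
      simp [cidx, ue, Pi.single_apply, hi]
    · intro h; exact absurd (Finset.mem_univ _) h
  rw [h1]
  have hp : (0 : ℤ) < 2 ^ k := by positivity
  have h2 : v j / 2 ^ k ≤ (v j + t) / 2 ^ k :=
    Int.ediv_le_ediv hp (by have : (0 : ℤ) ≤ t := Int.natCast_nonneg t
                            linarith)
  rw [abs_sub_comm, abs_of_nonneg (by linarith)]
  have h3 := Int.mul_ediv_self_le (x := v j + t) (k := 2 ^ k) hp.ne'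
  have h4 := Int.lt_mul_ediv_self_add (x := v j) (k := 2 ^ k) hp
  rw [mul_sub]
  linarith

theorem exit_le (U : Finset (S d)) (v : S d) (i j : Fin d) (hij : i ≠ j) (t : ℕ)
    (h : ∀ s : ℕ, s ≤ t → v + (s : ℤ) • ue i ∈ U) : t + 1 ≤ (eb U).card := by
  classical
  have h1 : ∀ s : ℕ, ∃ e : S d × Fin d, s ≤ t → e ∈ eb U ∧ e.1 i = v i + s := by
    intro s
    by_cases hs : s ≤ t
    · obtain ⟨r, _, hr⟩ := exit_edge U (v + (s : ℤ) • ue i) j (h s hs)
      refine ⟨_, fun _ => ⟨hr, ?_⟩⟩
      simp [ue, Pi.single_apply, hij]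
    · exact ⟨(v, i), fun h => absurd h hs⟩
  choose g hg using h1
  have h2 : Set.InjOn g (Finset.range (t + 1) : Finset ℕ) := by
    intro a ha b hb hab
    have ha' : a ≤ t := by
      have := Finset.mem_range.1 (Finset.mem_coe.1 ha); omega
    have hb' : b ≤ t := by
      have := Finset.mem_range.1 (Finset.mem_coe.1 hb); omega
    have h3 := (hg a ha').2
    have h4 := (hg b hb').2
    rw [hab, h4] at h3
    have : (b : ℤ) = a := by linarith
    exact_mod_cast this.symm
  have h3 : ((Finset.range (t + 1)).image g).card = t + 1 := by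
    rw [Finset.card_image_of_injOn h2, Finset.card_range]
  rw [← h3]
  apply Finset.card_le_card
  intro e he
  obtain ⟨s, hs, rfl⟩ := Finset.mem_image.1 he
  exact (hg s (by have := Finset.mem_range.1 hs; omega)).1

theorem count : St_CG → St_ORD → St_SEQ → St_COUNT := by
  classical
  intro hCG hORD hSEQ d hd
  obtain ⟨C1, hC1, hS⟩ := hSEQ d
  have hdr : (3 : ℝ) ≤ d := by exact_mod_cast hd
  refine ⟨6 + 32 * d * (1 + 4 * d + C1), by positivity, ?_⟩
  intro v l k
  let i0 : Fin d := ⟨0, by omega⟩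
  let i1 : Fin d := ⟨1, by omega⟩
  have hi : i0 ≠ i1 := by
    intro h
    have := congrArg Fin.val h
    simp [i0, i1] at this
  let Dd : ℕ → ℝ := fun f => 5 * l + 2 ^ k + 4 * d * 2 ^ k * f
  have hDd : ∀ f, 0 ≤ Dd f := fun f => by positivity
  choose T hT1 hT2 using fun f : ℕ => hS k f (Dd f) (cidx k v) (hDd f)
  let Phi : List (S d × Fin d) → Finset (S d) := fun L =>
    if h : ∃ U : Finset (S d), eb U = L.toFinset then h.choose else ∅
  have hPhi : ∀ (U : Finset (S d)) (L : List (S d × Fin d)), eb U = L.toFinset → Phi L = U := by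
    intro U L h
    have hex : ∃ U : Finset (S d), eb U = L.toFinset := ⟨U, h⟩
    have : Phi L = hex.choose := dif_pos hex
    rw [this]
    apply eb_inj i0
    rw [hex.choose_spec, h]
  let fm : ℕ := 32 * d * l / 4 ^ k
  refine ⟨(Finset.range (fm + 1)).biUnion (fun f => (T f).image Phi), ?_, ?_⟩
  · set X : ℝ := (l : ℝ) / 4 ^ k with hX
    have hX0 : 0 ≤ X := by positivity
    have hfm : (fm : ℝ) ≤ 32 * d * X := by
      have h1 : ((32 * d * l / 4 ^ k : ℕ) : ℝ) ≤ ((32 * d * l : ℕ) : ℝ) / ((4 ^ k : ℕ) : ℝ) :=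
        Nat.cast_div_le
      have h2 : ((32 * d * l : ℕ) : ℝ) / ((4 ^ k : ℕ) : ℝ) = 32 * d * X := by
        rw [hX]; push_cast; ring
      rw [h2] at h1
      exact h1
    have hc : (((Finset.range (fm + 1)).biUnion (fun f => (T f).image Phi)).card : ℝ) ≤
        (fm + 1) * Real.exp (5 * X + 1 + (4 * d + C1 * (k + 1)) * fm) := by
      have h1 : ((Finset.range (fm + 1)).biUnion (fun f => (T f).image Phi)).card ≤
          ∑ f ∈ Finset.range (fm + 1), (T f).card := by
        refine Finset.card_biUnion_le.trans ?_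
        exact Finset.sum_le_sum (fun f _ => Finset.card_image_le)
      have h2 : (((Finset.range (fm + 1)).biUnion (fun f => (T f).image Phi)).card : ℝ) ≤
          ∑ f ∈ Finset.range (fm + 1), ((T f).card : ℝ) := by
        exact_mod_cast h1
      refine h2.trans ?_
      have h3 : ∀ f ∈ Finset.range (fm + 1), ((T f).card : ℝ) ≤
          Real.exp (5 * X + 1 + (4 * d + C1 * (k + 1)) * fm) := by
        intro f hf
        have hf' : (f : ℝ) ≤ fm := by
          have : f ≤ fm := by have := Finset.mem_range.1 hf; omega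
          exact_mod_cast this
        refine (hT2 f).trans (Real.exp_le_exp.2 ?_)
        have hp4 : (0 : ℝ) < 4 ^ k := by positivity
        have h24 : (2 : ℝ) ^ k ≤ 4 ^ k := pow_le_pow_left₀ (by norm_num) (by norm_num) k
        have h4 : Dd f / 4 ^ k ≤ 5 * X + 1 + 4 * d * f := by
          rw [div_le_iff₀ hp4]
          have e : (5 * X + 1 + 4 * d * f) * 4 ^ k = 5 * l + 4 ^ k + 4 * d * f * 4 ^ k := by
            rw [hX]; field_simp
          rw [e]
          have h5 : 4 * (d : ℝ) * 2 ^ k * f ≤ 4 * d * f * 4 ^ k := by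
            have : 0 ≤ 4 * (d : ℝ) * f := by positivity
            nlinarith
          simp only [Dd]
          linarith
        have h6 : (4 * d + C1 * (k + 1)) * (f : ℝ) ≤ (4 * d + C1 * (k + 1)) * fm :=
          mul_le_mul_of_nonneg_left hf' (by positivity)
        nlinarith
      refine (Finset.sum_le_sum h3).trans ?_
      rw [Finset.sum_const, Finset.card_range, nsmul_eq_mul]
      push_cast
      exact le_rfl
    refine hc.trans ?_
    have h7 : (fm : ℝ) + 1 ≤ Real.exp fm := Real.add_one_le_exp _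
    refine (mul_le_mul_of_nonneg_right h7 (Real.exp_pos _).le).trans ?_
    rw [← Real.exp_add]
    apply Real.exp_le_exp.2
    have hk0 : (0 : ℝ) ≤ k := Nat.cast_nonneg k
    have e2 : (6 + 32 * (d : ℝ) * (1 + 4 * d + C1)) * ((k + 1) * l / 4 ^ k + 1) =
        (6 + 32 * d * (1 + 4 * d + C1)) * ((k + 1) * X + 1) := by
      rw [hX]; ring
    rw [e2]
    have h8 : (1 + 4 * d + C1 * (k + 1)) * (fm : ℝ) ≤
        (1 + 4 * d + C1 * (k + 1)) * (32 * d * X) :=
      mul_le_mul_of_nonneg_left hfm (by positivity)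
    have h9 : (1 + 4 * (d : ℝ) + C1 * (k + 1)) ≤ (1 + 4 * d + C1) * (k + 1) := by
      nlinarith [mul_nonneg hk0 (by positivity : (0 : ℝ) ≤ 1 + 4 * d)]
    have h10 : (1 + 4 * (d : ℝ) + C1 * (k + 1)) * (32 * d * X) ≤
        (1 + 4 * d + C1) * (k + 1) * (32 * d * X) :=
      mul_le_mul_of_nonneg_right h9 (by positivity)
    have h11 : 5 * X ≤ 6 * ((k + 1) * X) := by nlinarith [mul_nonneg hk0 hX0]
    have h12 : (0 : ℝ) ≤ 32 * d * (1 + 4 * d + C1) := by positivity
    nlinarith
  · intro Wc hv hconn hcard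
    obtain ⟨t, ht1, ht2⟩ := exit_edge Wc v i0 hv
    have htl : t + 1 ≤ l := by rw [← hcard]; exact exit_le Wc v i0 i1 hi t ht1
    obtain ⟨hA, hB, hC, hD, hE, hF, hG⟩ := hCG d (by omega) k Wc
    obtain ⟨L, hL1, hL2, hL3⟩ := hORD d k (eb Wc) (eb (cgi k Wc)) _ ht2 hconn hD
    rw [Finset.mem_biUnion]
    have h4 : (4 : ℕ) ^ k ≤ 2 ^ (k * (d - 1)) := by
      have : (4 : ℕ) ^ k = 2 ^ (k * 2) := by rw [mul_comm, pow_mul]; norm_num
      rw [this]
      exact Nat.pow_le_pow_right (by norm_num) (Nat.mul_le_mul_left k (by omega))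
    have hff : (eb (cgi k Wc)).card ≤ fm := by
      rw [Nat.le_div_iff_mul_le (by positivity)]
      refine (Nat.mul_le_mul_left _ h4).trans ?_
      rw [← hcard]; exact hB
    refine ⟨(eb (cgi k Wc)).card, Finset.mem_range.2 (by omega), ?_⟩
    rw [Finset.mem_image]
    refine ⟨L, ?_, hPhi _ _ hL1.symm⟩
    apply hT1 _ L hL2
    have h5 := len_tri (cidx k v) (cidx k (v + (t : ℤ) • ue i0)) L
    have h6 := cidx_ray k t v i0
    have hp : (0 : ℤ) < 2 ^ k := by positivity
    have h7 : 2 ^ k * len (cidx k v) L ≤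
        2 ^ k * l1 (cidx k v) (cidx k (v + (t : ℤ) • ue i0)) +
          2 ^ k * len (cidx k (v + (t : ℤ) • ue i0)) L := by
      rw [← mul_add]
      exact mul_le_mul_of_nonneg_left h5 hp.le
    have h8 : (t : ℤ) ≤ l := by
      have : t ≤ l := by omega
      exact_mod_cast this
    have h9 : 2 ^ k * len (cidx k v) L ≤
        5 * (l : ℤ) + 2 ^ k + 4 * d * 2 ^ k * (eb (cgi k Wc)).card := by
      rw [hcard] at hL3
      simp only at hL3
      linarith
    have h10 : ((2 ^ k * len (cidx k v) L : ℤ) : ℝ) ≤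
        ((5 * (l : ℤ) + 2 ^ k + 4 * d * 2 ^ k * (eb (cgi k Wc)).card : ℤ) : ℝ) := by
      exact_mod_cast h9
    push_cast at h10
    simp only [Dd]
    exact h10

end Pool.Agent.W136.TR
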